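import Pool.Agent.U152.EF.Ext

/-!
# Cocycles with values in a module on which a subgroup acts; invariant homomorphisms on a normal
subgroup which acts trivially
-/

set_option autoImplicit false

namespace Pool.Agent.U152.FM

open Subgroup Pool.Agent.U152.FS Pool.Agent.U152.EF

variable {𝔾 : Type} [Group 𝔾] {A : Type} [AddCommGroup A]

/-- `r` is an action of the subgroup `U` on `A` by endomorphisms. -/
structure IsAct (U : Subgroup 𝔾) (r : 𝔾 → A → A) : Prop where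
  mul : ∀ g ∈ U, ∀ h ∈ U, ∀ a, r (g * h) a = r g (r h a)
  one : ∀ a, r 1 a = a
  add : ∀ g ∈ U, ∀ a b, r g (a + b) = r g a + r g b

namespace IsAct

variable {U : Subgroup 𝔾} {r : 𝔾 → A → A}

theorem zero (h : IsAct U r) {g : 𝔾} (hg : g ∈ U) : r g 0 = 0 := by
  have h1 := h.add g hg 0 0
  rw [add_zero] at h1
  exact left_eq_add.1 h1

theorem neg (h : IsAct U r) {g : 𝔾} (hg : g ∈ U) (a : A) : r g (-a) = - r g a := by
  have h1 := h.add g hg a (-a)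
  rw [add_neg_cancel, h.zero hg] at h1
  exact (neg_eq_of_add_eq_zero_right h1.symm).symm

theorem sub (h : IsAct U r) {g : 𝔾} (hg : g ∈ U) (a b : A) : r g (a - b) = r g a - r g b := by
  rw [sub_eq_add_neg, h.add g hg, h.neg hg, ← sub_eq_add_neg]

theorem inv_mul (h : IsAct U r) {g : 𝔾} (hg : g ∈ U) (a : A) : r g⁻¹ (r g a) = a := by
  rw [← h.mul g⁻¹ (inv_mem hg) g hg, inv_mul_cancel, h.one]

theorem mul_inv (h : IsAct U r) {g : 𝔾} (hg : g ∈ U) (a : A) : r g (r g⁻¹ a) = a := by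
  rw [← h.mul g hg g⁻¹ (inv_mem hg), mul_inv_cancel, h.one]

end IsAct

variable [TopologicalSpace 𝔾] {Ω : Type}

/-- The continuous cocycles on `L` which vanish on the `I w ∩ V₀`. -/
def Co (r : 𝔾 → A → A) (I : Ω → Subgroup 𝔾) (L V₀ : Subgroup 𝔾) : Set (L → A) :=
  {z | (∀ g h, z (g * h) = z g + r g (z h)) ∧ (∃ M, Big M ∧ ∀ g : L, (g : 𝔾) ∈ M → z g = 0) ∧
    ∀ w, ∀ g : L, (g : 𝔾) ∈ I w → (g : 𝔾) ∈ V₀ → z g = 0}

/-- The continuous cocycles on `L` which are coboundaries on the `I w`. -/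
def Se (r : 𝔾 → A → A) (I : Ω → Subgroup 𝔾) (L : Subgroup 𝔾) : Set (L → A) :=
  {z | (∀ g h, z (g * h) = z g + r g (z h)) ∧ (∃ M, Big M ∧ ∀ g : L, (g : 𝔾) ∈ M → z g = 0) ∧
    ∀ w, ∃ a : A, ∀ g : L, (g : 𝔾) ∈ I w → z g = r g a - a}

/-- The continuous homomorphisms on `N` which vanish on the `I w` and are equivariant for `L`. -/
def XH (r : 𝔾 → A → A) (I : Ω → Subgroup 𝔾) (N L : Subgroup 𝔾) : Set (N → A) :=
  {x | (∀ n m, x (n * m) = x n + x m) ∧ (∃ M, Big M ∧ ∀ n : N, (n : 𝔾) ∈ M → x n = 0) ∧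
    (∀ w, ∀ n : N, (n : 𝔾) ∈ I w → x n = 0) ∧
    ∀ g ∈ L, ∀ n m : N, (m : 𝔾) = g⁻¹ * n * g → r g (x m) = x n}

variable {r : 𝔾 → A → A} {I : Ω → Subgroup 𝔾} {U L N : Subgroup 𝔾}

theorem co_one (hr : IsAct U r) {z : L → A} (hz : ∀ g h, z (g * h) = z g + r g (z h)) : z 1 = 0 := by
  have h1 := hz 1 1
  rw [mul_one, Subgroup.coe_one, hr.one] at h1
  exact left_eq_add.1 h1

theorem co_inv (hr : IsAct U r) (hLU : L ≤ U) {z : L → A} (hz : ∀ g h, z (g * h) = z g + r g (z h))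
    (g : L) : z g⁻¹ = - r (g : 𝔾)⁻¹ (z g) := by
  have h1 := hz g⁻¹ g
  rw [inv_mul_cancel, co_one hr hz] at h1
  exact eq_neg_of_add_eq_zero_left h1.symm

theorem Se.zero_mem (hr : IsAct U r) (hLU : L ≤ U) (hL : Big L) : (0 : L → A) ∈ Se r I L := by
  refine ⟨fun g h => ?_, ⟨L, hL, fun _ _ => rfl⟩, fun w => ⟨0, fun g _ => ?_⟩⟩
  · rw [Pi.zero_apply, Pi.zero_apply, Pi.zero_apply, hr.zero (hLU g.2), add_zero]
  · rw [Pi.zero_apply, hr.zero (hLU g.2), sub_zero]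

/-- Restriction to a normal subgroup which acts trivially. -/
theorem up_le [Finite A] (hr : IsAct U r) (hLU : L ≤ U) (hNL : N ≤ L)
    (htriv : ∀ n ∈ N, ∀ a, r n a = a) {n C : ℕ} (hn0 : N.relIndex L ≠ 0) (hn : N.relIndex L ≤ n)
    (hC : (XH r I N L).encard ≤ (C : ℕ∞)) :
    (Se r I L).encard ≤ ((Nat.card A ^ n * C : ℕ) : ℕ∞) := by
  classical
  have hfi : (N.subgroupOf L).FiniteIndex := ⟨hn0⟩
  have hfin : Finite (L ⧸ N.subgroupOf L) := inferInstance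
  refine fiber_le (fun (z : L → A) (m : N) => z ⟨m, hNL m.2⟩) (t := XH r I N L) (fun z hz => ?_) hC ?_
  · obtain ⟨h1, ⟨M, hM, h2⟩, h3⟩ := hz
    refine ⟨fun a b => ?_, ⟨M, hM, fun x hx => h2 _ hx⟩, fun w x hx => ?_, fun g hg x y hxy => ?_⟩
    · have h4 := h1 ⟨a, hNL a.2⟩ ⟨b, hNL b.2⟩
      rw [htriv a a.2] at h4
      exact h4
    · obtain ⟨a, ha⟩ := h3 w
      show z ⟨x, hNL x.2⟩ = 0
      rw [ha _ hx, htriv x x.2, sub_self]
    · have h4 := h1 ⟨g, hg⟩ ⟨y, hNL y.2⟩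
      have h5 := h1 ⟨x, hNL x.2⟩ ⟨g, hg⟩
      have h6 : (⟨g, hg⟩ * ⟨y, hNL y.2⟩ : L) = ⟨x, hNL x.2⟩ * ⟨g, hg⟩ := by
        apply Subtype.ext
        show g * (y : 𝔾) = x * g
        rw [hxy]
        group
      rw [h6, h5, htriv x x.2, add_comm] at h4
      exact (add_left_cancel h4).symm
  · intro T hT hf
    have h6 : Nat.card T ≤ Nat.card (L ⧸ N.subgroupOf L → A) :=
      Nat.card_le_card_of_injective (fun φ : T => fun q => φ.1 q.out) (by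
        intro φ ψ h
        apply Subtype.ext
        funext x
        obtain ⟨u, hu⟩ := QuotientGroup.mk_out_eq_mul (N.subgroupOf L) x
        have h7 := congrFun h (x : L ⧸ N.subgroupOf L)
        simp only at h7
        have ha := (hT φ.2).1
        have hb := (hT ψ.2).1
        have h8 := congrFun (hf _ φ.2 _ ψ.2) ⟨u, u.2⟩
        change φ.1 (u : L) = ψ.1 (u : L) at h8
        rw [hu, ha, hb, h8] at h7
        exact add_right_cancel h7)
    rw [Nat.card_fun, Nat.card_eq_fintype_card, Fintype.card_coe] at h6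
    exact h6.trans (Nat.pow_le_pow_right Nat.card_pos hn)

/-- the cochain of an equivariant homomorphism -/
noncomputable def zc (r : 𝔾 → A → A) (x : N → A) (g : L) : A := r g (x (nu L N g))

theorem zc_mul (hr : IsAct U r) (hLU : L ≤ U) (hNL : N ≤ L)
    (hN : ∀ g ∈ L, ∀ n ∈ N, g⁻¹ * n * g ∈ N) (htriv : ∀ n ∈ N, ∀ a, r n a = a)
    {x : N → A} (hx : x ∈ XH r I N L) (g g' : L) :
    zc r x (g * g') = r (g * g' : 𝔾) (x ⟨fs L N g g', fs_mem L N g g'⟩) + zc r x g +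
      r g (zc r x g') := by
  have h1 : nu L N (g * g') = ⟨fs L N g g', fs_mem L N g g'⟩ *
      ⟨((rr L N g' : L) : 𝔾)⁻¹ * (nu L N g : 𝔾) * (rr L N g' : L),
        hN _ (rr L N g').2 _ (nu L N g).2⟩ * nu L N g' := by
    apply Subtype.ext
    change ((rr L N (g * g') : L) : 𝔾)⁻¹ * ((g * g' : L) : 𝔾) = _ * _ * _
    rw [rr_mul L N hN]
    change _ = (((rr L N (rr L N g * rr L N g') : L) : 𝔾)⁻¹ * ((rr L N g : L) * (rr L N g' : L))) *
      (((rr L N g' : L) : 𝔾)⁻¹ * (((rr L N g : L) : 𝔾)⁻¹ * g) * (rr L N g' : L)) *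
      (((rr L N g' : L) : 𝔾)⁻¹ * g')
    rw [Subgroup.coe_mul]
    group
  have hg := hLU g.2
  have hg' := hLU g'.2
  have h2 : ∀ a, r g' a = r (rr L N g' : L) a := by
    intro a
    have h3 : (g' : 𝔾) = (rr L N g' : L) * (nu L N g' : 𝔾) := by
      change (g' : 𝔾) = (rr L N g' : L) * (((rr L N g' : L) : 𝔾)⁻¹ * (g' : 𝔾))
      group
    have h4 : r g' a = r ((rr L N g' : L) * (nu L N g' : 𝔾)) a := by rw [← h3]
    rw [h4, hr.mul _ (hLU (rr L N g').2) _ (hLU (hNL (nu L N g').2)), htriv _ (nu L N g').2]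
  have h5 : r g' (x ⟨((rr L N g' : L) : 𝔾)⁻¹ * (nu L N g : 𝔾) * (rr L N g' : L),
      hN _ (rr L N g').2 _ (nu L N g).2⟩) = x (nu L N g) := by
    rw [h2]
    exact hx.2.2.2 _ (rr L N g').2 (nu L N g) _ rfl
  have h6 : zc r x (g * g') = r ((g * g' : L) : 𝔾) (x (nu L N (g * g'))) := rfl
  rw [h6, h1, hx.1, hx.1, Subgroup.coe_mul, hr.add _ (mul_mem hg hg'), hr.add _ (mul_mem hg hg')]
  rw [hr.mul _ hg _ hg' (x ⟨((rr L N g' : L) : 𝔾)⁻¹ * (nu L N g : 𝔾) * (rr L N g' : L),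
      hN _ (rr L N g').2 _ (nu L N g).2⟩), h5, hr.mul _ hg _ hg' (x (nu L N g'))]
  rfl

theorem zc_of_mem (hr : IsAct U r) (hLU : L ≤ U) (hNL : N ≤ L)
    (hN : ∀ g ∈ L, ∀ n ∈ N, g⁻¹ * n * g ∈ N) (htriv : ∀ n ∈ N, ∀ a, r n a = a)
    {x : N → A} (hx : x ∈ XH r I N L) (n : N) :
    zc r x (⟨n, hNL n.2⟩ : L) = x n - x ⟨fs L N (1 : L) (1 : L), fs_mem L N (1 : L) (1 : L)⟩ := by
  have h2 : ((1 : L) : L ⧸ N.subgroupOf L) = ((⟨n, hNL n.2⟩ : L) : L ⧸ N.subgroupOf L) := by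
    apply QuotientGroup.eq.2
    change (((1 : L) : 𝔾)⁻¹ * (n : 𝔾)) ∈ N
    rw [Subgroup.coe_one, inv_one, one_mul]
    exact n.2
  have h3 : nu L N (⟨n, hNL n.2⟩ : L) = nu L N 1 * n := by
    apply Subtype.ext
    change ((rr L N (⟨n, hNL n.2⟩ : L) : L) : 𝔾)⁻¹ * (n : 𝔾) =
      (((rr L N 1 : L) : 𝔾)⁻¹ * ((1 : L) : 𝔾)) * (n : 𝔾)
    have h4 : rr L N (⟨n, hNL n.2⟩ : L) = rr L N 1 := by
      unfold rr
      rw [h2]
    rw [h4, Subgroup.coe_one, mul_one]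
  have h5 := zc_mul hr hLU hNL hN htriv hx 1 1
  have h6 : zc r x (1 : L) = x (nu L N 1) := by
    change r ((1 : L) : 𝔾) (x (nu L N 1)) = x (nu L N 1)
    rw [Subgroup.coe_one, hr.one]
  rw [mul_one, h6, Subgroup.coe_one, mul_one, hr.one, hr.one] at h5
  have h7 : x ⟨fs L N (1 : L) (1 : L), fs_mem L N (1 : L) (1 : L)⟩ + x (nu L N 1) = 0 := right_eq_add.1 h5
  have h8 : zc r x (⟨n, hNL n.2⟩ : L) = r n (x (nu L N (⟨n, hNL n.2⟩ : L))) := rfl
  rw [h8, htriv n n.2, h3, hx.1, eq_neg_of_add_eq_zero_right h7]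
  abel

/-- The number of the equivariant homomorphisms is bounded by the number of the cocycles with weak
local conditions. -/
theorem down_le [Finite A] (hr : IsAct U r) (hLU : L ≤ U) (hNL : N ≤ L)
    (hN : ∀ g ∈ L, ∀ n ∈ N, g⁻¹ * n * g ∈ N) (hNb : Big N) (htriv : ∀ n ∈ N, ∀ a, r n a = a)
    {n C : ℕ} (hn0 : N.relIndex L ≠ 0) (hn : N.relIndex L ≤ n)
    (hC : (Co r I L N).encard ≤ (C : ℕ∞)) :
    (XH r I N L).encard ≤ ((C * Nat.card A ^ (n * n) : ℕ) : ℕ∞) := by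
  classical
  have hfi : (N.subgroupOf L).FiniteIndex := ⟨hn0⟩
  have hfin : Finite (L ⧸ N.subgroupOf L) := inferInstance
  let f : (N → A) → ((L ⧸ N.subgroupOf L) × (L ⧸ N.subgroupOf L) → A) :=
    fun x q => x ⟨fs L N q.1 q.2, fs_mem L N q.1 q.2⟩
  refine fiber_le f (t := Set.univ) (fun _ _ => Set.mem_univ _) (B := Nat.card A ^ (n * n)) ?_ ?_
  · rw [Set.encard_univ, ENat.card_eq_coe_natCard]
    have h1 : Nat.card ((L ⧸ N.subgroupOf L) × (L ⧸ N.subgroupOf L) → A) ≤ Nat.card A ^ (n * n) := by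
      rw [Nat.card_fun, Nat.card_prod]
      exact Nat.pow_le_pow_right Nat.card_pos (Nat.mul_le_mul hn hn)
    exact_mod_cast h1
  · intro T hT hf
    rcases T.eq_empty_or_nonempty with rfl | ⟨x₀, hx₀⟩
    · simp
    have hx2 := hT (Finset.mem_coe.2 hx₀)
    have hval : ∀ x ∈ T, ∀ m : N, zc r x (⟨m, hNL m.2⟩ : L) - zc r x₀ (⟨m, hNL m.2⟩ : L) =
        x m - x₀ m := by
      intro x hx m
      have hx1 := hT (Finset.mem_coe.2 hx)
      have h8 := congrFun (hf x hx x₀ hx₀) ((1 : L), (1 : L))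
      change x ⟨fs L N (1 : L) (1 : L), fs_mem L N (1 : L) (1 : L)⟩ =
        x₀ ⟨fs L N (1 : L) (1 : L), fs_mem L N (1 : L) (1 : L)⟩ at h8
      rw [zc_of_mem hr hLU hNL hN htriv hx1, zc_of_mem hr hLU hNL hN htriv hx2, h8]
      abel
    have hinj : Set.InjOn (fun (x : N → A) (g : L) => zc r x g - zc r x₀ g) T := by
      intro x hx y hy hxy
      funext m
      have h1 := congrFun hxy (⟨m, hNL m.2⟩ : L)
      simp only at h1
      rw [hval x (Finset.mem_coe.1 hx), hval y (Finset.mem_coe.1 hy)] at h1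
      exact sub_left_injective h1
    rw [← Finset.card_image_of_injOn hinj]
    refine card_le hC _ ?_
    intro y hy
    obtain ⟨x, hx, rfl⟩ := Finset.mem_image.1 (Finset.mem_coe.1 hy)
    have hx1 := hT (Finset.mem_coe.2 hx)
    obtain ⟨M, hM, hM0⟩ := hx1.2.1
    obtain ⟨M', hM', hM0'⟩ := hx2.2.1
    refine ⟨fun g g' => ?_, ⟨N ⊓ (M ⊓ M'), hNb.inf (hM.inf hM'), fun g hg => ?_⟩, fun w g hg hgN => ?_⟩
    · show zc r x (g * g') - zc r x₀ (g * g') =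
        (zc r x g - zc r x₀ g) + r g (zc r x g' - zc r x₀ g')
      have h3 := congrFun (hf x hx x₀ hx₀) ((g : L ⧸ N.subgroupOf L), (g' : L ⧸ N.subgroupOf L))
      change x ⟨fs L N g g', _⟩ = x₀ ⟨fs L N g g', _⟩ at h3
      rw [zc_mul hr hLU hNL hN htriv hx1, zc_mul hr hLU hNL hN htriv hx2, h3, hr.sub (hLU g.2)]
      abel
    · show zc r x g - zc r x₀ g = 0
      have h1 := hval x hx ⟨g, hg.1⟩
      change zc r x g - zc r x₀ g = _ at h1
      rw [h1, hM0 ⟨g, hg.1⟩ hg.2.1, hM0' ⟨g, hg.1⟩ hg.2.2, sub_self]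
    · show zc r x g - zc r x₀ g = 0
      have h1 := hval x hx ⟨g, hgN⟩
      change zc r x g - zc r x₀ g = _ at h1
      rw [h1, hx1.2.2.1 w ⟨g, hgN⟩ hg, hx2.2.2.1 w ⟨g, hgN⟩ hg, sub_self]

/-- Weaker local conditions. -/
theorem weak_le [Finite A] [MulAction 𝔾 Ω] (hr : IsAct U r) (hLU : L ≤ U)
    (hI : ∀ (g : 𝔾) (w : Ω), ∀ x ∈ I w, g * x * g⁻¹ ∈ I (g • w)) {V₀ : Subgroup 𝔾}
    {n t C : ℕ} (hn0 : V₀.relIndex L ≠ 0) (hn : V₀.relIndex L ≤ n) (T : Finset Ω) (hTt : T.card ≤ t)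
    (hT : ∀ w, I w ⊓ L ≤ V₀ ∨ ∃ u ∈ T, ∃ d ∈ L, w = d • u)
    (hC : (Se r I L).encard ≤ (C : ℕ∞)) :
    (Co r I L V₀).encard ≤ ((C * (Nat.card A ^ n) ^ t : ℕ) : ℕ∞) := by
  classical
  have hfi : ∀ u, (V₀.subgroupOf (I u ⊓ L)).FiniteIndex := fun u =>
    ⟨fun h => hn0 (relIndex_eq_zero_of_le_right inf_le_right h)⟩
  have hfin : ∀ u, Finite ((I u ⊓ L : Subgroup 𝔾) ⧸ V₀.subgroupOf (I u ⊓ L)) := fun u => by
    have := hfi u
    infer_instance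
  let f : (L → A) → ((u : T) → ((I u.1 ⊓ L : Subgroup 𝔾) ⧸ V₀.subgroupOf (I u.1 ⊓ L)) → A) :=
    fun h u q => h ⟨q.out.1, q.out.2.2⟩
  refine fiber_le f (t := Set.univ) (fun _ _ => Set.mem_univ _) (B := (Nat.card A ^ n) ^ t) ?_ ?_
  · rw [Set.encard_univ, ENat.card_eq_coe_natCard]
    have h1 : Nat.card ((u : T) → ((I u.1 ⊓ L : Subgroup 𝔾) ⧸ V₀.subgroupOf (I u.1 ⊓ L)) → A) ≤
        (Nat.card A ^ n) ^ t := by
      rw [Nat.card_pi]
      calc ∏ u : T, Nat.card (((I u.1 ⊓ L : Subgroup 𝔾) ⧸ V₀.subgroupOf (I u.1 ⊓ L)) → A)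
          ≤ ∏ _u : T, Nat.card A ^ n := by
            refine Finset.prod_le_prod' fun u _ => ?_
            rw [Nat.card_fun]
            refine Nat.pow_le_pow_right Nat.card_pos (le_trans ?_ hn)
            exact relIndex_le_of_le_right inf_le_right hn0
        _ = (Nat.card A ^ n) ^ T.card := by
            rw [Finset.prod_const, Finset.card_univ, Fintype.card_coe]
        _ ≤ (Nat.card A ^ n) ^ t := Nat.pow_le_pow_right (Nat.pow_pos Nat.card_pos) hTt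
    exact_mod_cast h1
  · intro T' hT' hf
    rcases T'.eq_empty_or_nonempty with rfl | ⟨h₀, hh₀⟩
    · simp
    rw [← Finset.card_image_of_injective T' (sub_left_injective (b := h₀))]
    refine card_le hC _ ?_
    intro g hg
    obtain ⟨h, hh, rfl⟩ := Finset.mem_image.1 (Finset.mem_coe.1 hg)
    obtain ⟨a1, ⟨N, hN, b1⟩, c1⟩ := hT' (Finset.mem_coe.2 hh)
    obtain ⟨a2, ⟨M, hM, b2⟩, c2⟩ := hT' (Finset.mem_coe.2 hh₀)
    have hadd : ∀ x y, (h - h₀) (x * y) = (h - h₀) x + r x ((h - h₀) y) := by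
      intro x y
      rw [Pi.sub_apply, Pi.sub_apply, Pi.sub_apply, a1, a2, hr.sub (hLU x.2)]
      abel
    refine ⟨hadd, ⟨N ⊓ M, hN.inf hM, fun x hx => ?_⟩, fun w => ?_⟩
    · rw [Pi.sub_apply, b1 x hx.1, b2 x hx.2, sub_self]
    · rcases hT w with h1 | ⟨u, hu, d, hd, rfl⟩
      · refine ⟨0, fun x hx => ?_⟩
        have h2 : (x : 𝔾) ∈ V₀ := h1 ⟨hx, x.2⟩
        rw [Pi.sub_apply, c1 w x hx h2, c2 w x hx h2, sub_self, hr.zero (hLU x.2), sub_zero]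
      · -- the difference vanishes on `I u ∩ L`
        have hu0 : ∀ y : L, (y : 𝔾) ∈ I u → (h - h₀) y = 0 := by
          intro y hy
          let y' : (I u ⊓ L : Subgroup 𝔾) := ⟨y, hy, y.2⟩
          obtain ⟨v, hv⟩ := QuotientGroup.mk_out_eq_mul (V₀.subgroupOf (I u ⊓ L)) y'
          have e1 : y = (⟨((y' : ((I u ⊓ L : Subgroup 𝔾) ⧸ V₀.subgroupOf (I u ⊓ L))).out).1,
              ((y' : ((I u ⊓ L : Subgroup 𝔾) ⧸ V₀.subgroupOf (I u ⊓ L))).out).2.2⟩ : L) *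
              (⟨v.1.1, v.1.2.2⟩ : L)⁻¹ := by
            apply Subtype.ext
            show (y : 𝔾) = ((y' : ((I u ⊓ L : Subgroup 𝔾) ⧸ V₀.subgroupOf (I u ⊓ L))).out).1 *
              (v.1.1)⁻¹
            rw [hv]
            show (y : 𝔾) = (y : 𝔾) * v.1.1 * (v.1.1)⁻¹
            group
          have e2 : (h - h₀) ((⟨v.1.1, v.1.2.2⟩ : L)⁻¹) = 0 := by
            have hv1 : (v.1.1 : 𝔾)⁻¹ ∈ I u := (I u).inv_mem v.1.2.1
            have hv2 : (v.1.1 : 𝔾)⁻¹ ∈ V₀ := V₀.inv_mem (show (v.1.1 : 𝔾) ∈ V₀ from v.2)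
            rw [Pi.sub_apply, c1 u _ hv1 hv2, c2 u _ hv1 hv2, sub_self]
          have h3 : f h ⟨u, hu⟩ y' = f h₀ ⟨u, hu⟩ y' := by rw [hf h hh h₀ hh₀]
          rw [e1, hadd, e2, hr.zero (hLU (Subtype.property _)), add_zero, Pi.sub_apply, sub_eq_zero]
          exact h3
        refine ⟨- (h - h₀) ⟨d, hd⟩, fun x hx => ?_⟩
        have hx' : (d⁻¹ * x * d : 𝔾) ∈ I u := by
          have h1 := hI d⁻¹ (d • u) x hx
          rwa [inv_inv, inv_smul_smul] at h1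
        have hxL : (d⁻¹ * x * d : 𝔾) ∈ L := L.mul_mem (L.mul_mem (L.inv_mem hd) x.2) hd
        -- `x d = d x'`
        have e3 : x * ⟨d, hd⟩ = (⟨d, hd⟩ : L) * ⟨d⁻¹ * x * d, hxL⟩ := by
          apply Subtype.ext
          show (x : 𝔾) * d = d * (d⁻¹ * x * d)
          group
        have e4 := hadd x ⟨d, hd⟩
        rw [e3, hadd, hu0 ⟨d⁻¹ * x * d, hxL⟩ hx', hr.zero (hLU hd), add_zero] at e4
        rw [hr.neg (hLU x.2), sub_neg_eq_add]
        rw [← sub_eq_iff_eq_add] at e4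
        rw [← e4]
        abel

end Pool.Agent.U152.FM
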