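import Pool.Agent.U152.FM.Lay
import Pool.Agent.U152.EF.Abs

/-!
# Number fields which contain a totally real field
-/

set_option autoImplicit false

namespace Pool.Agent.U152.FM

open Subgroup Module IntermediateField Pool.Agent.U152.FS Pool.Agent.U152.EF Pool.Agent.Q60.MU
open Pool.Agent.W5h77.MB Pool.Agent.U152.MU Pool.Agent.U152.RK Pool.Agent.U10.Shr
open Pool.Agent.X310.Mu (comms comms_normal)
open scoped ComplexConjugate

variable {p : ℕ} [hp : Fact p.Prime] {S : Set ℕ} {A : Type} [AddCommGroup A] [Finite A]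
  {K₀ : IntermediateField ℚ Qb} {r : Gal(Qb/ℚ) → A → A}

/-- the numbers of the Selmer cocycles in the layers are bounded -/
def SB (p : ℕ) (S : Set ℕ) (r : Gal(Qb/ℚ) → A → A) (L : Subgroup Gal(Qb/ℚ)) : Prop :=
  ∃ C : ℕ, ∀ R ∈ Layers p, (Se r (loc S) (L ⊓ R.fixingSubgroup)).encard ≤ (C : ℕ∞)

omit hp in
theorem sb_mono (hr : IsAct K₀.fixingSubgroup r) {E F : IntermediateField ℚ Qb}
    (hF : FiniteDimensional ℚ F) (hKE : K₀ ≤ E) (hEF : E ≤ F)
    (h : SB p S r F.fixingSubgroup) : SB p S r E.fixingSubgroup := by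
  obtain ⟨C, hC⟩ := h
  refine ⟨Nat.card A ^ F.fixingSubgroup.index * C, fun R hR => ?_⟩
  have h1 : ∀ X : Subgroup Gal(Qb/ℚ), X ≤ R.fixingSubgroup →
      (F.fixingSubgroup ⊓ R.fixingSubgroup).relIndex X = F.fixingSubgroup.relIndex X :=
    fun X hX => relIndex_layer hX
  refine mono_le hr (inf_le_left.trans (fixingSubgroup_le hKE))
    (inf_le_inf_right _ (fixingSubgroup_le hEF)) ?_ ?_ (hC R hR)
  · rw [h1 _ inf_le_right]
    exact (relIndex_core (big_fix F) _).1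
  · rw [h1 _ inf_le_right]
    exact (relIndex_core (big_fix F) _).2

theorem conj_mem_real (hK : ∀ φ : Qb →+* ℂ, ∀ x ∈ K₀, conj (φ x) = φ x) {φ : Qb →+* ℂ}
    {c : Gal(Qb/ℚ)} (hc : ∀ x, φ (c x) = conj (φ x)) : c ∈ K₀.fixingSubgroup := by
  rw [IntermediateField.mem_fixingSubgroup_iff]
  intro x hx
  apply φ.injective
  rw [hc, hK φ x hx]

theorem conj_conj {ι : Qb →+* ℂ} {c : Gal(Qb/ℚ)} (hc : ∀ x, ι (c x) = conj (ι x)) (g : Gal(Qb/ℚ))
    (x : Qb) : (ι.comp (g⁻¹ : Qb ≃+* Qb).toRingHom) ((g * c * g⁻¹) x) =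
      conj ((ι.comp (g⁻¹ : Qb ≃+* Qb).toRingHom) x) := by
  change ι (g⁻¹ ((g * c * g⁻¹) x)) = conj (ι (g⁻¹ x))
  rw [← hc, ← AlgEquiv.mul_apply, ← AlgEquiv.mul_apply]
  congr 2
  group

theorem fix_cc {F : IntermediateField ℚ Qb} (γ : Gal(Qb/ℚ)) :
    cc γ F.fixingSubgroup = F.fixingSubgroup ⊓ (F.map γ.toAlgHom).fixingSubgroup := by
  ext m
  rw [mem_cc, Subgroup.mem_inf, mem_fix_map]

/-- **The inequality for number fields.** -/
theorem fld_le (hp2 : p ≠ 2) (hr : IsAct K₀.fixingSubgroup r) (hS : Primes S)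
    (hK : ∀ φ : Qb →+* ℂ, ∀ x ∈ K₀, conj (φ x) = φ x) {V : Subgroup Gal(Qb/ℚ)} (hV : Big V)
    (htriv : ∀ n ∈ V, ∀ a, r n a = a) {F : IntermediateField ℚ Qb} (hF : FiniteDimensional ℚ F)
    (hKF : K₀ ≤ F) {ι : Qb →+* ℂ} {c : Gal(Qb/ℚ)} (hc : ∀ x, ι (c x) = conj (ι x)) (hcc : c * c = 1) :
    ∃ (n : ℕ) (φ : Fin n → (Qb →+* ℂ)) (γ : Fin n → Gal(Qb/ℚ)),
      (∀ i x, φ i (γ i x) = conj (φ i x)) ∧
      ∃ C : ℕ, ∀ R ∈ Layers p, ∀ (B : Fin n → ℕ) (D : ℕ),
        (∀ i, (Se r (loc S) (((F ⊔ F.map (γ i).toAlgHom) ⊓ realSub (φ i)).fixingSubgroup ⊓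
          R.fixingSubgroup)).encard ≤ (B i : ℕ∞)) →
        (Se r (loc S) ((F.fixingSubgroup ⊔ comms c) ⊓ R.fixingSubgroup)).encard ≤ (D : ℕ∞) →
        (Se r (loc S) (F.fixingSubgroup ⊓ R.fixingSubgroup)).encard ≤ ((C * D * ∏ i, B i : ℕ) : ℕ∞) := by
  classical
  obtain ⟨κ, hκ, γ, hγ, C, hC⟩ := se_le hp2 hr hS hV htriv (big_fix F) (fixingSubgroup_le hKF) hcc
    (fun g => conj_mem_real hK (conj_conj hc g))
  choose g hg using hγ
  let e := Fintype.equivFin κ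
  refine ⟨Fintype.card κ, fun i => ι.comp ((g (e.symm i))⁻¹ : Qb ≃+* Qb).toRingHom,
    fun i => γ (e.symm i), fun i x => ?_, C, fun R hR B D hB hD => ?_⟩
  · have h1 := conj_conj hc (g (e.symm i)) x
    rw [← hg] at h1
    exact h1
  · have h2 := hC R hR (fun q => B (e q)) D (fun q => ?_) hD
    · have h3 : ∏ q, B (e q) = ∏ i, B i := Equiv.prod_comp e B
      rw [h3] at h2
      exact h2
    · have h4 : ∀ i, (Se r (loc S) ((cc (γ (e.symm i)) F.fixingSubgroup ⊔ zpowers (γ (e.symm i))) ⊓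
          R.fixingSubgroup)).encard ≤ (B i : ℕ∞) := by
        intro i
        have h3 := hB i
        have hc' : ∀ x, (ι.comp ((g (e.symm i))⁻¹ : Qb ≃+* Qb).toRingHom) (γ (e.symm i) x) =
            conj ((ι.comp ((g (e.symm i))⁻¹ : Qb ≃+* Qb).toRingHom) x) := by
          intro x
          have h1 := conj_conj hc (g (e.symm i)) x
          rw [← hg] at h1
          exact h1
        have h5 := fix_F (F := F) hc'
        rw [← fix_cc] at h5
        rw [← h5]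
        exact h3
      have h5 := h4 (e q)
      rwa [e.symm_apply_apply] at h5

/-- The step for the boundedness. -/
theorem sb_step (hp2 : p ≠ 2) (hr : IsAct K₀.fixingSubgroup r) (hS : Primes S)
    (hK : ∀ φ : Qb →+* ℂ, ∀ x ∈ K₀, conj (φ x) = φ x) {V : Subgroup Gal(Qb/ℚ)} (hV : Big V)
    (htriv : ∀ n ∈ V, ∀ a, r n a = a) (F : IntermediateField ℚ Qb) (hF : FiniteDimensional ℚ F)
    (ι : Qb →+* ℂ) (c : Gal(Qb/ℚ)) (hc : ∀ x, ι (c x) = conj (ι x)) (hcc : c * c = 1)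
    (h1 : ∀ (ι' : Qb →+* ℂ) (c' : Gal(Qb/ℚ)), (∀ x, ι' (c' x) = conj (ι' x)) →
      (K₀ ≤ ((F ⊔ F.map c'.toAlgHom) ⊓ realSub ι') →
        SB p S r ((F ⊔ F.map c'.toAlgHom) ⊓ realSub ι').fixingSubgroup))
    (h2 : K₀ ≤ fixedField (F.fixingSubgroup ⊔ comms c) →
      SB p S r (fixedField (F.fixingSubgroup ⊔ comms c)).fixingSubgroup)
    (hKF : K₀ ≤ F) : SB p S r F.fixingSubgroup := by
  have hWo : IsOpen ((F.fixingSubgroup ⊔ comms c : Subgroup Gal(Qb/ℚ)) : Set Gal(Qb/ℚ)) :=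
    Subgroup.isOpen_mono le_sup_left F.fixingSubgroup_isOpen
  have hKreal : ∀ φ : Qb →+* ℂ, K₀ ≤ realSub φ := fun φ x hx => mem_realSub.2 (hK φ x hx)
  have hU : F.fixingSubgroup ⊔ comms c ≤ K₀.fixingSubgroup := by
    refine sup_le (fixingSubgroup_le hKF) ?_
    unfold comms
    rw [Subgroup.closure_le]
    rintro _ ⟨g, rfl⟩
    exact mul_mem (conj_mem_real hK (conj_conj hc g)) (inv_mem (conj_mem_real hK hc))
  rw [fix_fixed hWo] at h2
  have h2' := h2 ((le_iff_le _ _).2 hU)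
  obtain ⟨n, φ, γ, hγ, C, hC⟩ := fld_le hp2 hr hS hK hV htriv hF hKF hc hcc
  obtain ⟨D, hD⟩ := h2'
  choose B hB using fun i => h1 (φ i) (γ i) (hγ i) (le_inf (hKF.trans le_sup_left) (hKreal _))
  exact ⟨C * D * ∏ i, B i, fun R hR => hC R hR B D (fun i => hB i R hR) (hD R hR)⟩

/-- The subfield of `F` on which all the complex conjugations agree. -/
theorem agree_iff {F : IntermediateField ℚ Qb} (hF : FiniteDimensional ℚ F) {ι : Qb →+* ℂ}
    {c : Gal(Qb/ℚ)} (hc : ∀ x, ι (c x) = conj (ι x)) (hcc : c * c = 1) (x : Qb) :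
    x ∈ fixedField (F.fixingSubgroup ⊔ comms c) ↔ x ∈ F ∧
      ∀ (φ ψ : Qb →+* ℂ) (d e : Gal(Qb/ℚ)), (∀ x, φ (d x) = conj (φ x)) →
        (∀ x, ψ (e x) = conj (ψ x)) → d x = e x := by
  have hn : (comms c).Normal := Pool.Agent.X310.Mu.comms_normal c
  have hmem : ∀ g : Gal(Qb/ℚ), g * c * g⁻¹ * c⁻¹ ∈ comms c := fun g =>
    Subgroup.subset_closure ⟨g, rfl⟩
  constructor
  · intro hx
    rw [mem_fixedField_iff] at hx
    have h0 : x ∈ F := by
      have h1 : x ∈ fixedField F.fixingSubgroup := by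
        rw [mem_fixedField_iff]
        exact fun g hg => hx g (mem_sup_left hg)
      rwa [InfiniteGalois.fixedField_fixingSubgroup] at h1
    refine ⟨h0, ?_⟩
    have key : ∀ (φ : Qb →+* ℂ) (d : Gal(Qb/ℚ)), (∀ x, φ (d x) = conj (φ x)) → d x = c x := by
      intro φ d hd
      apply φ.injective
      rw [hd]
      obtain ⟨g, hg⟩ := exists_emb ι φ
      have h1 : c x = (g⁻¹ * c * g) x := by
        have h2 := hn.conj_mem _ (hmem g⁻¹) c⁻¹
        rw [inv_inv, inv_inv] at h2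
        have h3 := hx _ (mem_sup_right h2)
        have h4 : g⁻¹ * c * g = c * (c⁻¹ * (g⁻¹ * c * g * c⁻¹) * c) := by group
        rw [h4, AlgEquiv.mul_apply, h3]
      rw [h1, ← hg, ← hg, ← hc]
      congr 1
      rw [← AlgEquiv.mul_apply, ← AlgEquiv.mul_apply]
      congr 1
      group
    intro φ ψ d e hd he
    rw [key φ d hd, key ψ e he]
  · rintro ⟨hx, h⟩
    rw [mem_fixedField_iff]
    have hle : F.fixingSubgroup ⊔ comms c ≤ MulAction.stabilizer Gal(Qb/ℚ) x := by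
      refine sup_le (fun g hg => ?_) ?_
      · exact (IntermediateField.mem_fixingSubgroup_iff _ _).1 hg x hx
      · unfold comms
        rw [Subgroup.closure_le]
        rintro _ ⟨g, rfl⟩
        have h1 : (g * c * g⁻¹) x = c x := h _ ι (g * c * g⁻¹) c (conj_conj hc g) hc
        have hci : c⁻¹ = c := inv_eq_of_mul_eq_one_right hcc
        change (g * c * g⁻¹ * c⁻¹) x = x
        rw [hci, AlgEquiv.mul_apply, ← h1, ← AlgEquiv.mul_apply]
        have h2 : g * c * g⁻¹ * (g * c * g⁻¹) = 1 := by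
          have h3 : g * c * g⁻¹ * (g * c * g⁻¹) = g * (c * c) * g⁻¹ := by group
          rw [h3, hcc, mul_one, mul_inv_cancel]
        rw [h2, AlgEquiv.one_apply]
    exact fun g hg => hle hg

/-- The degree of `F_c` over `K₀`. -/
theorem rel_deg (hK : ∀ φ : Qb →+* ℂ, ∀ x ∈ K₀, conj (φ x) = φ x) {F : IntermediateField ℚ Qb}
    [FiniteDimensional ℚ F] (hKF : K₀ ≤ F) (hF : ¬ RealPl F) {ι : Qb →+* ℂ} {c : Gal(Qb/ℚ)}
    (hc : ∀ x, ι (c x) = conj (ι x)) :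
    ∃ e : ℕ, finrank ℚ F = e * finrank ℚ K₀ ∧
      2 * finrank ℚ ((F ⊔ F.map c.toAlgHom) ⊓ realSub ι : IntermediateField ℚ Qb) ≤
        e * (e - 1) * finrank ℚ K₀ := by
  have hK₀f : FiniteDimensional ℚ K₀ := fd_of_le hKF
  set U := K₀.fixingSubgroup with hU
  set L := F.fixingSubgroup with hL
  have hLU : L ≤ U := fixingSubgroup_le hKF
  have hcU : c ∈ U := conj_mem_real hK hc
  have hcL : c ∉ L := fun h => hF ⟨ι, fun x hx => by
    rw [← hc, (IntermediateField.mem_fixingSubgroup_iff _ _).1 h x hx]⟩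
  set L₂ := (F.map c.toAlgHom).fixingSubgroup with hL₂
  set W := (L ⊓ L₂) ⊔ Subgroup.zpowers c with hW
  have hWU : W ≤ U := sup_le (inf_le_left.trans hLU) ((zpowers_le (g := c)).2 hcU)
  have hLb : L.FiniteIndex := ⟨index_ne_zero' F⟩
  have hL₂b : L₂.FiniteIndex := ⟨index_ne_zero' _⟩
  have h1 := index_bound (G := U) (H := L.subgroupOf U) (H₂ := L₂.subgroupOf U) (c := ⟨c, hcU⟩)
    (fun h => hcL h) (fun m => mem_fix_map c (m : Gal(Qb/ℚ)))
  have h2 : (L.subgroupOf U ⊓ L₂.subgroupOf U) ⊔ Subgroup.zpowers (⟨c, hcU⟩ : U) ≤ W.subgroupOf U := by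
    refine sup_le (fun x hx => ?_) ((zpowers_le (g := (⟨c, hcU⟩ : U))).2 ?_)
    · exact mem_sup_left (S := L ⊓ L₂) ⟨hx.1, hx.2⟩
    · exact mem_sup_right (mem_zpowers c)
  have hfi : ((L.subgroupOf U ⊓ L₂.subgroupOf U) ⊔ Subgroup.zpowers (⟨c, hcU⟩ : U)).FiniteIndex :=
    Subgroup.finiteIndex_of_le (H := L.subgroupOf U ⊓ L₂.subgroupOf U) le_sup_left
  have h3 : (W.subgroupOf U).index ≤
      ((L.subgroupOf U ⊓ L₂.subgroupOf U) ⊔ Subgroup.zpowers (⟨c, hcU⟩ : U)).index :=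
    Subgroup.index_antitone h2
  refine ⟨L.relIndex U, ?_, ?_⟩
  · rw [finrank_eq_fixingSubgroup_index, finrank_eq_fixingSubgroup_index, relIndex_mul_index hLU]
  · rw [finrank_eq_fixingSubgroup_index, finrank_eq_fixingSubgroup_index, fix_F hc]
    change 2 * W.index ≤ L.relIndex U * (L.relIndex U - 1) * U.index
    rw [← relIndex_mul_index hWU, ← mul_assoc]
    refine Nat.mul_le_mul_right _ (le_trans (Nat.mul_le_mul_left 2 h3) h1)

/-- All the fields of bounded degree over `K₀`. -/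
theorem rel_all {P : IntermediateField ℚ Qb → Prop}
    (hK : ∀ φ : Qb →+* ℂ, ∀ x ∈ K₀, conj (φ x) = φ x)
    (hmono : ∀ E F : IntermediateField ℚ Qb, FiniteDimensional ℚ F → E ≤ F → P F → P E)
    (hstep : ∀ F : IntermediateField ℚ Qb, FiniteDimensional ℚ F → ∀ (ι : Qb →+* ℂ) (c : Gal(Qb/ℚ)),
      (∀ x, ι (c x) = conj (ι x)) → c * c = 1 →
      (∀ (ι' : Qb →+* ℂ) (c' : Gal(Qb/ℚ)), (∀ x, ι' (c' x) = conj (ι' x)) →
        P ((F ⊔ F.map c'.toAlgHom) ⊓ realSub ι')) →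
      P (fixedField (F.fixingSubgroup ⊔ comms c)) → P F)
    {d : ℕ} (hd : 3 ≤ d)
    (hr : ∀ E : IntermediateField ℚ Qb, FiniteDimensional ℚ E → RealPl E →
      2 * finrank ℚ E ≤ d * (d - 1) * finrank ℚ K₀ → P E)
    (hcm : ∀ E : IntermediateField ℚ Qb, FiniteDimensional ℚ E → CM E →
      finrank ℚ E ≤ d * finrank ℚ K₀ → P E)
    (F : IntermediateField ℚ Qb) [FiniteDimensional ℚ F] (hKF : K₀ ≤ F)
    (hF : finrank ℚ F ≤ d * finrank ℚ K₀) : P F := by
  have hK₀f : FiniteDimensional ℚ K₀ := fd_of_le hKF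
  have hpos : 0 < finrank ℚ K₀ := finrank_pos
  by_cases hreal : RealPl F
  · refine hr F inferInstance hreal ?_
    have h1 : d * 2 ≤ d * (d - 1) := Nat.mul_le_mul_left _ (by omega)
    calc 2 * finrank ℚ F ≤ 2 * (d * finrank ℚ K₀) := Nat.mul_le_mul_left _ hF
      _ = d * 2 * finrank ℚ K₀ := by ring
      _ ≤ d * (d - 1) * finrank ℚ K₀ := Nat.mul_le_mul_right _ h1
  · refine abs_step hmono hstep F (fun ι c hc => ?_) fun E hE hcE => ?_
    · refine hr _ inferInstance ⟨ι, fun x hx => mem_realSub.1 ((IntermediateField.mem_inf).1 hx).2⟩ ?_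
      obtain ⟨e, he1, he2⟩ := rel_deg hK hKF hreal hc
      refine he2.trans (Nat.mul_le_mul_right _ ?_)
      rw [he1] at hF
      have h1 : e ≤ d := Nat.le_of_mul_le_mul_right hF hpos
      exact Nat.mul_le_mul h1 (Nat.sub_le_sub_right h1 1)
    · have := fd_of_le hE
      have h1 : finrank ℚ E ≤ finrank ℚ F :=
        Nat.le_of_dvd finrank_pos (IntermediateField.finrank_dvd_of_le_right hE)
      exact hcm E inferInstance hcE (h1.trans hF)

end Pool.Agent.U152.FM
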