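import Pool.Agent.U152.FM.Coc
import Pool.Agent.U152.EF.Lay

/-!
# Involutions acting on the equivariant homomorphisms
-/

set_option autoImplicit false

namespace Pool.Agent.U152.FM

open Subgroup Pool.Agent.U152.FS Pool.Agent.U152.EF
open Pool.Agent.X310.Mu (comms comms_normal)

section act

variable {𝔾 : Type} [Group 𝔾] {A : Type} [AddCommGroup A] {N : Subgroup 𝔾}

/-- conjugation on a normal subgroup -/
def cn (hN : N.Normal) (c : 𝔾) (n : N) : N :=
  ⟨c⁻¹ * n * c, by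
    have h1 := hN.conj_mem n n.2 c⁻¹
    rwa [inv_inv] at h1⟩

theorem cn_mul (hN : N.Normal) (c : 𝔾) (n m : N) : cn hN c (n * m) = cn hN c n * cn hN c m := by
  apply Subtype.ext
  show c⁻¹ * ((n : 𝔾) * m) * c = c⁻¹ * n * c * (c⁻¹ * m * c)
  group

theorem cn_cn (hN : N.Normal) (c d : 𝔾) (n : N) : cn hN c (cn hN d n) = cn hN (d * c) n := by
  apply Subtype.ext
  show c⁻¹ * (d⁻¹ * n * d) * c = (d * c)⁻¹ * n * (d * c)
  group

theorem cn_one (hN : N.Normal) (n : N) : cn hN 1 n = n := by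
  apply Subtype.ext
  show (1 : 𝔾)⁻¹ * n * 1 = n
  group

/-- the action on the functions on `N` -/
def act (r : 𝔾 → A → A) (hN : N.Normal) (g : 𝔾) (x : N → A) (n : N) : A := r g (x (cn hN g n))

variable {r : 𝔾 → A → A} {U : Subgroup 𝔾} (hN : N.Normal)

theorem act_mul (hr : IsAct U r) {g h : 𝔾} (hg : g ∈ U) (hh : h ∈ U) (x : N → A) :
    act r hN (g * h) x = act r hN g (act r hN h x) := by
  funext n
  show r (g * h) (x (cn hN (g * h) n)) = r g (r h (x (cn hN h (cn hN g n))))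
  rw [hr.mul g hg h hh, cn_cn]

theorem act_one (hr : IsAct U r) (x : N → A) : act r hN 1 x = x := by
  funext n
  show r 1 (x (cn hN 1 n)) = x n
  rw [hr.one, cn_one]

theorem act_add (hr : IsAct U r) {g : 𝔾} (hg : g ∈ U) (x y : N → A) :
    act r hN g (x + y) = act r hN g x + act r hN g y := by
  funext n
  exact hr.add g hg _ _

theorem act_neg (hr : IsAct U r) {g : 𝔾} (hg : g ∈ U) (x : N → A) :
    act r hN g (-x) = - act r hN g x := by
  funext n
  exact hr.neg hg _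

theorem act_sub (hr : IsAct U r) {g : 𝔾} (hg : g ∈ U) (x y : N → A) :
    act r hN g (x - y) = act r hN g x - act r hN g y := by
  funext n
  exact hr.sub hg _ _

/-- the stabilizer -/
def stX (hr : IsAct U r) (x : N → A) : Subgroup 𝔾 where
  carrier := {g | g ∈ U ∧ act r hN g x = x}
  one_mem' := ⟨one_mem _, act_one hN hr x⟩
  mul_mem' := by
    rintro a b ⟨h1, h2⟩ ⟨h3, h4⟩
    exact ⟨mul_mem h1 h3, by rw [act_mul hN hr h1 h3, h4, h2]⟩
  inv_mem' := by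
    rintro a ⟨h1, h2⟩
    refine ⟨inv_mem h1, ?_⟩
    have h3 : act r hN (a⁻¹ * a) x = act r hN a⁻¹ (act r hN a x) :=
      act_mul hN hr (inv_mem h1) h1 x
    rw [inv_mul_cancel, act_one hN hr, h2] at h3
    exact h3.symm

variable [TopologicalSpace 𝔾] {Ω : Type} {I : Ω → Subgroup 𝔾} {L : Subgroup 𝔾}

theorem mem_xh {x : N → A} : x ∈ XH r I N L ↔
    (∀ n m, x (n * m) = x n + x m) ∧ (∃ M, Big M ∧ ∀ n : N, (n : 𝔾) ∈ M → x n = 0) ∧
    (∀ w, ∀ n : N, (n : 𝔾) ∈ I w → x n = 0) ∧ ∀ g ∈ L, act r hN g x = x := by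
  refine and_congr_right fun _ => and_congr_right fun _ => and_congr_right fun _ =>
    forall_congr' fun g => forall_congr' fun _ => ?_
  constructor
  · intro h
    funext n
    exact h n _ rfl
  · intro h n m hm
    have h1 : m = cn hN g n := Subtype.ext hm
    rw [h1]
    exact congrFun h n

include hN in
theorem xh_sub (hr : IsAct U r) (hLU : L ≤ U) {x y : N → A} (hx : x ∈ XH r I N L)
    (hy : y ∈ XH r I N L) : x - y ∈ XH r I N L := by
  rw [mem_xh hN] at hx hy ⊢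
  obtain ⟨a1, ⟨M, hM, a2⟩, a3, a4⟩ := hx
  obtain ⟨b1, ⟨M', hM', b2⟩, b3, b4⟩ := hy
  refine ⟨fun n m => ?_, ⟨M ⊓ M', hM.inf hM', fun n hn => ?_⟩, fun w n hn => ?_, fun g hg => ?_⟩
  · rw [Pi.sub_apply, Pi.sub_apply, Pi.sub_apply, a1, b1]
    abel
  · rw [Pi.sub_apply, a2 n hn.1, b2 n hn.2, sub_self]
  · rw [Pi.sub_apply, a3 w n hn, b3 w n hn, sub_self]
  · rw [act_sub hN hr (hLU hg), a4 g hg, b4 g hg]

variable [IsTopologicalGroup 𝔾] [MulAction 𝔾 Ω]

/-- The symmetric part for an involution. -/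
theorem ps_mem (hr : IsAct U r) (hLU : L ≤ U)
    (hI : ∀ (g : 𝔾) (w : Ω), ∀ x ∈ I w, g * x * g⁻¹ ∈ I (g • w)) {c : 𝔾} (hc : c * c = 1)
    (hcU : c ∈ U) {x : N → A} (hx : x ∈ XH r I N L) :
    x + act r hN c x ∈ XH r I N (cc c L ⊔ zpowers c) := by
  have hci : c⁻¹ = c := inv_eq_of_mul_eq_one_right hc
  rw [mem_xh hN] at hx ⊢
  obtain ⟨a1, ⟨M, hM, a2⟩, a3, a4⟩ := hx
  refine ⟨fun n m => ?_, ⟨M ⊓ M.comap (MulAut.conj c⁻¹).toMonoidHom, hM.inf (Big.conj hM c),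
    fun n hn => ?_⟩, fun w n hn => ?_, ?_⟩
  · show x (n * m) + r c (x (cn hN c (n * m))) = (x n + r c (x (cn hN c n))) +
      (x m + r c (x (cn hN c m)))
    rw [cn_mul, a1, a1, hr.add c hcU]
    abel
  · show x n + r c (x (cn hN c n)) = 0
    have h4 : c⁻¹ * (n : 𝔾) * c ∈ M := by
      have h5 : (MulAut.conj c⁻¹).toMonoidHom (n : 𝔾) ∈ M := hn.2
      simpa [MulAut.conj_apply] using h5
    rw [a2 n hn.1, a2 (cn hN c n) h4, hr.zero hcU, add_zero]
  · show x n + r c (x (cn hN c n)) = 0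
    have h4 : c⁻¹ * (n : 𝔾) * c ∈ I (c⁻¹ • w) := by
      have h5 := hI c⁻¹ w _ hn
      rwa [inv_inv] at h5
    rw [a3 w n hn, a3 _ (cn hN c n) h4, hr.zero hcU, add_zero]
  · have hle : cc c L ⊔ zpowers c ≤ stX hN hr (x + act r hN c x) := by
      refine sup_le (fun g hg => ?_) ((zpowers_le (g := c)).2 ?_)
      · obtain ⟨h1, h2⟩ := mem_cc.1 hg
        refine ⟨hLU h1, ?_⟩
        have h3 : act r hN (g * c) x = act r hN c x := by
          have h4 : g * c = c * (c⁻¹ * g * c) := by group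
          rw [h4, act_mul hN hr hcU (hLU h2), a4 _ h2]
        rw [act_add hN hr (hLU h1), ← act_mul hN hr (hLU h1) hcU, a4 g h1, h3]
      · refine ⟨hcU, ?_⟩
        rw [act_add hN hr hcU, ← act_mul hN hr hcU hcU, hc, act_one hN hr, add_comm]
    intro g hg
    exact (hle hg).2

/-- the equivariant homomorphisms which are antisymmetric for the `γ q`, `q ∈ J` -/
def AX {ι : Type} (r : 𝔾 → A → A) (I : Ω → Subgroup 𝔾) (hN : N.Normal) (L : Subgroup 𝔾) (γ : ι → 𝔾)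
    (J : Finset ι) : Set (N → A) :=
  {x | x ∈ XH r I N L ∧ ∀ q ∈ J, act r hN (γ q) x = - x}

theorem ax_step {ι : Type} [DecidableEq ι] (hr : IsAct U r) (hLU : L ≤ U)
    (hI : ∀ (g : 𝔾) (w : Ω), ∀ x ∈ I w, g * x * g⁻¹ ∈ I (g • w)) {γ : ι → 𝔾}
    (hγ : ∀ q, γ q * γ q = 1) (hγU : ∀ q, γ q ∈ U) (B : ι → ℕ)
    (hB : ∀ q, (XH r I N (cc (γ q) L ⊔ zpowers (γ q))).encard ≤ (B q : ℕ∞)) (J : Finset ι) :
    ∀ D : ℕ, (AX r I hN L γ J).encard ≤ (D : ℕ∞) →
      (XH r I N L).encard ≤ ((D * ∏ q ∈ J, B q : ℕ) : ℕ∞) := by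
  induction J using Finset.induction_on with
  | empty =>
    intro D hD
    rw [Finset.prod_empty, mul_one]
    refine le_trans (Set.encard_le_encard fun x hx => ?_) hD
    exact ⟨hx, fun q hq => absurd hq (Finset.notMem_empty q)⟩
  | insert q J hq ih =>
    intro D hD
    rw [Finset.prod_insert hq, ← mul_assoc]
    refine ih (D * B q) ?_
    refine fiber_le (fun x => x + act r hN (γ q) x)
      (fun x hx => ps_mem hN hr hLU hI (hγ q) (hγU q) hx.1) (hB q) fun T hT hf => ?_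
    rcases T.eq_empty_or_nonempty with rfl | ⟨x₀, hx₀⟩
    · simp
    classical
    rw [← Finset.card_image_of_injective T (sub_left_injective (b := x₀))]
    refine card_le hD _ ?_
    intro y hy
    obtain ⟨x, hx, rfl⟩ := Finset.mem_image.1 (Finset.mem_coe.1 hy)
    have h1 := hT (Finset.mem_coe.2 hx)
    have h2 := hT (Finset.mem_coe.2 hx₀)
    refine ⟨xh_sub hN hr hLU h1.1 h2.1, fun q' hq' => ?_⟩
    rcases Finset.mem_insert.1 hq' with rfl | hq'
    · have h3 : x + act r hN (γ q') x = x₀ + act r hN (γ q') x₀ := hf x hx x₀ hx₀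
      rw [act_sub hN hr (hγU _), neg_sub, sub_eq_sub_iff_add_eq_add, add_comm _ x, h3, add_comm]
    · rw [act_sub hN hr (hγU _), h1.2 q' hq', h2.2 q' hq']
      abel

end act

section all

open Pool.Agent.Q60.MU

variable {A : Type} [AddCommGroup A] {N L G U : Subgroup Gal(Qb/ℚ)} {r : Gal(Qb/ℚ) → A → A}
  {Ω : Type} {I : Ω → Subgroup Gal(Qb/ℚ)} {c : Gal(Qb/ℚ)}

/-- Antisymmetric for all the conjugates of the involution. -/
theorem ax_inv (hr : IsAct U r) (hLU : L ≤ U) (hc : c * c = 1) (hcU : ∀ g, g * c * g⁻¹ ∈ U)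
    (hN : N.Normal) [Fintype (Gal(Qb/ℚ) ⧸ N)] (hNL : N ≤ L) (hG : G.Normal) (hcG : c ∈ G)
    (hNG : (N ⊓ G).Normal) {x : ↥(N ⊓ G) → A}
    (hx : x ∈ AX r I hNG (L ⊓ G) (cq c) (Finset.univ : Finset (Gal(Qb/ℚ) ⧸ N))) :
    x ∈ XH r I (N ⊓ G) ((L ⊔ comms c) ⊓ G) := by
  obtain ⟨hx1, hx2⟩ := hx
  have hx3 := (mem_xh hNG).1 hx1
  rw [mem_xh hNG]
  refine ⟨hx3.1, hx3.2.1, hx3.2.2.1, ?_⟩
  have hcqU : ∀ q : Gal(Qb/ℚ) ⧸ N, cq c q ∈ U := fun q => hcU q.out
  have hcqG : ∀ q : Gal(Qb/ℚ) ⧸ N, cq c q ∈ G := fun q => hG.conj_mem c hcG q.out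
  have hall : ∀ g : Gal(Qb/ℚ), act r hNG (g * c * g⁻¹) x = - x := by
    intro g
    obtain ⟨m, hm, hgm⟩ := cq_rep hN c g
    have hmG : m ∈ G := by
      have h1 : m = (cq c (g : Gal(Qb/ℚ) ⧸ N))⁻¹ * (g * c * g⁻¹) := by
        rw [hgm]
        group
      rw [h1]
      exact mul_mem (inv_mem (hcqG _)) (hG.conj_mem c hcG g)
    rw [hgm, act_mul hNG hr (hcqU _) (hLU (hNL hm)), hx3.2.2.2 m ⟨hNL hm, hmG⟩]
    exact hx2 _ (Finset.mem_univ _)
  have hle : (L ⊓ G) ⊔ comms c ≤ stX hNG hr x := by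
    refine sup_le (fun g hg => ⟨hLU hg.1, hx3.2.2.2 g hg⟩) ?_
    unfold comms
    rw [Subgroup.closure_le]
    rintro _ ⟨g, rfl⟩
    have hci : c⁻¹ = c := inv_eq_of_mul_eq_one_right hc
    have hcU1 : c ∈ U := by
      have h1 := hcU 1
      rwa [one_mul, inv_one, mul_one] at h1
    have hc1 : act r hNG c x = - x := by
      have h1 := hall 1
      rwa [one_mul, inv_one, mul_one] at h1
    refine ⟨mul_mem (hcU g) (inv_mem hcU1), ?_⟩
    rw [hci, act_mul hNG hr (hcU g) hcU1, hc1, act_neg hNG hr (hcU g), hall g, neg_neg]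
  intro g hg
  have hg1 : g ∈ L ⊔ comms c := hg.1
  have hg2 : g ∈ G := hg.2
  have hcn := comms_normal c
  obtain ⟨l, hl, d, hd, rfl⟩ : ∃ l ∈ L, ∃ d ∈ comms c, g = l * d := by
    rw [← SetLike.mem_coe, Subgroup.mul_normal] at hg1
    obtain ⟨l, hl, d, hd, rfl⟩ := hg1
    exact ⟨l, hl, d, hd, rfl⟩
  have hDG : comms c ≤ G := by
    unfold comms
    rw [Subgroup.closure_le]
    rintro _ ⟨g, rfl⟩
    exact mul_mem (hG.conj_mem c hcG g) (inv_mem hcG)
  have hlG : l ∈ G := by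
    have h1 := mul_mem hg2 (inv_mem (hDG hd))
    rwa [mul_inv_cancel_right] at h1
  exact (hle (mul_mem (mem_sup_left ⟨hl, hlG⟩) (mem_sup_right hd))).2

end all

end Pool.Agent.U152.FM
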