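import Pool.Agent.U152.FM.Inv

/-!
# The layers of the cyclotomic extension: an inequality for the numbers of Selmer cocycles
-/

set_option autoImplicit false

namespace Pool.Agent.U152.FM

open Subgroup Module IntermediateField Pool.Agent.U152.FS Pool.Agent.U152.EF Pool.Agent.Q60.MU
open Pool.Agent.W5h77.MB Pool.Agent.U152.MU
open Pool.Agent.X310.Mu (comms comms_normal)
open scoped Pointwise

variable {p : ℕ} [hp : Fact p.Prime] {S : Set ℕ} {A : Type} [AddCommGroup A] [Finite A]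
  {U L N : Subgroup Gal(Qb/ℚ)} {r : Gal(Qb/ℚ) → A → A}

theorem relIndex_core (hNb : Big N) (X : Subgroup Gal(Qb/ℚ)) :
    N.relIndex X ≠ 0 ∧ N.relIndex X ≤ N.index := by
  have hNf : N.FiniteIndex := ⟨hNb.2⟩
  have h0 : N.relIndex ⊤ = N.index := relIndex_top_right N
  refine ⟨Subgroup.FiniteIndex.index_ne_zero (H := N.subgroupOf X), ?_⟩
  rw [← h0]
  exact relIndex_le_of_le_right le_top (by rw [h0]; exact hNb.2)

theorem relIndex_layer {X G : Subgroup Gal(Qb/ℚ)} (hXG : X ≤ G) :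
    (N ⊓ G).relIndex X = N.relIndex X := by
  unfold relIndex
  congr 1
  ext x
  rw [mem_subgroupOf, mem_subgroupOf, Subgroup.mem_inf]
  exact ⟨fun h => h.1, fun h => ⟨h, hXG x.2⟩⟩

/-- The equivariant homomorphisms are bounded by the Selmer cocycles. -/
theorem xh_bound (hr : IsAct U r) (hS : Primes S) (hN : N.Normal) (hNb : Big N)
    (htriv : ∀ n ∈ N, ∀ a, r n a = a) {X : Subgroup Gal(Qb/ℚ)} (hX : Big X) (hXU : X ≤ U)
    (hNX : N ≤ X) : ∃ K : ℕ, ∀ R ∈ Layers p, ∀ B : ℕ,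
      (Se r (loc S) (X ⊓ R.fixingSubgroup)).encard ≤ (B : ℕ∞) →
      (XH r (loc S) (N ⊓ R.fixingSubgroup) (X ⊓ R.fixingSubgroup)).encard ≤ ((B * K : ℕ) : ℕ∞) := by
  obtain ⟨t, ht⟩ := exists_exc (p := p) hS hX hNb
  refine ⟨(Nat.card A ^ N.index) ^ t * Nat.card A ^ (N.index * N.index), fun R hR B hB => ?_⟩
  have hRf := (lay_layers hp.out R hR).1
  have hGn : R.fixingSubgroup.Normal :=
    (InfiniteGalois.normal_iff_isGalois R).2 (lay_layers hp.out R hR).2.1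
  have hNR : (N ⊓ R.fixingSubgroup).Normal := inferInstance
  have hconj : ∀ (g : Gal(Qb/ℚ)), ∀ n ∈ N ⊓ R.fixingSubgroup,
      g⁻¹ * n * g ∈ N ⊓ R.fixingSubgroup := by
    intro g n hn
    have h1 := hNR.conj_mem n hn g⁻¹
    rwa [inv_inv] at h1
  obtain ⟨T, hTt, hT⟩ := ht R hR
  have hXU' : X ⊓ R.fixingSubgroup ≤ U := inf_le_left.trans hXU
  have h1 := weak_le hr hXU' (loc_conj S) (V₀ := N) (n := N.index) (relIndex_core hNb _).1
    (relIndex_core hNb _).2 T hTt hT hB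
  have h2 : Co r (loc S) (X ⊓ R.fixingSubgroup) (N ⊓ R.fixingSubgroup) =
      Co r (loc S) (X ⊓ R.fixingSubgroup) N := by
    ext h
    refine and_congr_right fun _ => and_congr_right fun _ => forall_congr' fun w =>
      forall_congr' fun x => ?_
    exact ⟨fun h3 h4 h5 => h3 h4 ⟨h5, x.2.2⟩, fun h3 h4 h5 => h3 h4 h5.1⟩
  rw [← h2] at h1
  have h3 := down_le hr hXU' (inf_le_inf_right _ hNX) (fun g _ n hn => hconj g n hn)
    (hNb.inf (big_fix R)) (fun n hn => htriv n hn.1) (n := N.index)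
    (by rw [relIndex_layer inf_le_right]; exact (relIndex_core hNb _).1)
    (by rw [relIndex_layer inf_le_right]; exact (relIndex_core hNb _).2) h1
  rw [mul_assoc] at h3
  exact h3

/-- **The inequality.** -/
theorem se_le (hp2 : p ≠ 2) (hr : IsAct U r) (hS : Primes S) {V : Subgroup Gal(Qb/ℚ)} (hV : Big V)
    (htriv : ∀ n ∈ V, ∀ a, r n a = a) (hL : Big L) (hLU : L ≤ U) {c : Gal(Qb/ℚ)} (hc : c * c = 1)
    (hcU : ∀ g, g * c * g⁻¹ ∈ U) :
    ∃ (ι : Type) (_ : Fintype ι) (γ : ι → Gal(Qb/ℚ)), (∀ q, ∃ g, γ q = g * c * g⁻¹) ∧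
      ∃ C : ℕ, ∀ R ∈ Layers p, ∀ (B : ι → ℕ) (D : ℕ),
        (∀ q, (Se r (loc S) ((cc (γ q) L ⊔ zpowers (γ q)) ⊓ R.fixingSubgroup)).encard ≤ (B q : ℕ∞)) →
        (Se r (loc S) ((L ⊔ comms c) ⊓ R.fixingSubgroup)).encard ≤ (D : ℕ∞) →
        (Se r (loc S) (L ⊓ R.fixingSubgroup)).encard ≤ ((C * D * ∏ q, B q : ℕ) : ℕ∞) := by
  classical
  set N := L.normalCore ⊓ V.normalCore with hNdef
  have hLn : L.normalCore.Normal := Subgroup.normalCore_normal _
  have hVn : V.normalCore.Normal := Subgroup.normalCore_normal _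
  have hN : N.Normal := inferInstance
  have hNL : N ≤ L := inf_le_left.trans (Subgroup.normalCore_le _)
  have hNb : Big N := hL.core.inf hV.core
  have hNf : N.FiniteIndex := ⟨hNb.2⟩
  have htr : ∀ n ∈ N, ∀ a, r n a = a := fun n hn => htriv n (Subgroup.normalCore_le _ hn.2)
  have hFt : Fintype (Gal(Qb/ℚ) ⧸ N) := Fintype.ofFinite _
  have hcq2 : ∀ q : Gal(Qb/ℚ) ⧸ N, cq c q * cq c q = 1 := fun q => cq_sq hc q
  have hcqU : ∀ q : Gal(Qb/ℚ) ⧸ N, cq c q ∈ U := fun q => hcU q.out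
  have hNcc : ∀ q : Gal(Qb/ℚ) ⧸ N, N ≤ cc (cq c q) L := by
    intro q n hn
    refine mem_cc.2 ⟨hNL hn, hNL ?_⟩
    have h1 := hN.conj_mem n hn (cq c q)⁻¹
    rwa [inv_inv] at h1
  have hNW : ∀ q : Gal(Qb/ℚ) ⧸ N, N ≤ cc (cq c q) L ⊔ zpowers (cq c q) :=
    fun q => (hNcc q).trans le_sup_left
  have hWb : ∀ q : Gal(Qb/ℚ) ⧸ N, Big (cc (cq c q) L ⊔ zpowers (cq c q)) := fun q => hNb.mono (hNW q)
  have hWU : ∀ q : Gal(Qb/ℚ) ⧸ N, cc (cq c q) L ⊔ zpowers (cq c q) ≤ U := by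
    intro q
    refine sup_le (fun g hg => hLU (mem_cc.1 hg).1) ((zpowers_le (g := cq c q)).2 (hcqU q))
  have hcU1 : c ∈ U := by
    have h1 := hcU 1
    rwa [one_mul, inv_one, mul_one] at h1
  have hDU : L ⊔ comms c ≤ U := by
    refine sup_le hLU ?_
    unfold comms
    rw [Subgroup.closure_le]
    rintro _ ⟨g, rfl⟩
    exact mul_mem (hcU g) (inv_mem hcU1)
  choose K hK using fun q => xh_bound (p := p) hr hS hN hNb htr (hWb q) (hWU q) (hNW q)
  obtain ⟨K₀, hK₀⟩ := xh_bound (p := p) hr hS hN hNb htr (X := L ⊔ comms c) (hL.mono le_sup_left) hDU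
    (hNL.trans le_sup_left)
  refine ⟨Gal(Qb/ℚ) ⧸ N, hFt, cq c, fun q => ⟨q.out, rfl⟩,
    Nat.card A ^ N.index * K₀ * ∏ q, K q, fun R hR B D hB hD => ?_⟩
  have hRf := (lay_layers hp.out R hR).1
  have hGn : R.fixingSubgroup.Normal :=
    (InfiniteGalois.normal_iff_isGalois R).2 (lay_layers hp.out R hR).2.1
  have hNR : (N ⊓ R.fixingSubgroup).Normal := inferInstance
  have hcG : c ∈ R.fixingSubgroup := inv_layer hp2 hR hc
  have h1 : ∀ q : Gal(Qb/ℚ) ⧸ N, (XH r (loc S) (N ⊓ R.fixingSubgroup)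
      (cc (cq c q) (L ⊓ R.fixingSubgroup) ⊔ zpowers (cq c q))).encard ≤ ((B q * K q : ℕ) : ℕ∞) := by
    intro q
    rw [← cc_layer hGn (cq_sq hc q) (inv_layer hp2 hR (cq_sq hc q))]
    exact hK q R hR (B q) (hB q)
  have h2 : (AX r (loc S) hNR (L ⊓ R.fixingSubgroup) (cq c)
      (Finset.univ : Finset (Gal(Qb/ℚ) ⧸ N))).encard ≤ ((D * K₀ : ℕ) : ℕ∞) := by
    refine le_trans (Set.encard_le_encard fun x hx => ?_) (hK₀ R hR D hD)
    exact ax_inv hr hLU hc hcU hN hNL hGn hcG hNR hx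
  have h3 := ax_step hNR hr (inf_le_left.trans hLU) (loc_conj S) hcq2 hcqU
    (fun q => B q * K q) h1 Finset.univ _ h2
  have h4 := up_le hr (L := L ⊓ R.fixingSubgroup) (inf_le_left.trans hLU) (inf_le_inf_right _ hNL)
    (fun n hn => htr n hn.1) (n := N.index)
    (by rw [relIndex_layer inf_le_right]; exact (relIndex_core hNb _).1)
    (by rw [relIndex_layer inf_le_right]; exact (relIndex_core hNb _).2) h3
  refine h4.trans ?_
  rw [Finset.prod_mul_distrib]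
  have h5 : Nat.card A ^ N.index * (D * K₀ * ((∏ q, B q) * ∏ q, K q)) =
      Nat.card A ^ N.index * K₀ * (∏ q, K q) * D * ∏ q, B q := by ring
  rw [h5]

/-- Restriction to a smaller group. -/
theorem mono_le (hr : IsAct U r) {M : Subgroup Gal(Qb/ℚ)} (hMU : M ≤ U) (hLM : L ≤ M)
    {n C : ℕ} (hn0 : L.relIndex M ≠ 0) (hn : L.relIndex M ≤ n)
    (hC : (Se r (loc S) L).encard ≤ (C : ℕ∞)) :
    (Se r (loc S) M).encard ≤ ((Nat.card A ^ n * C : ℕ) : ℕ∞) := by
  classical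
  have hfi : (L.subgroupOf M).FiniteIndex := ⟨hn0⟩
  have hfin : Finite (M ⧸ L.subgroupOf M) := inferInstance
  refine fiber_le (fun (z : M → A) (m : L) => z ⟨m, hLM m.2⟩) (t := Se r (loc S) L)
    (fun z hz => ?_) hC ?_
  · obtain ⟨h1, ⟨W, hW, h2⟩, h3⟩ := hz
    refine ⟨fun a b => h1 ⟨a, hLM a.2⟩ ⟨b, hLM b.2⟩, ⟨W, hW, fun x hx => h2 _ hx⟩, fun w => ?_⟩
    obtain ⟨a, ha⟩ := h3 w
    exact ⟨a, fun g hg => ha _ hg⟩
  · intro T hT hf
    have h6 : Nat.card T ≤ Nat.card (M ⧸ L.subgroupOf M → A) :=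
      Nat.card_le_card_of_injective (fun φ : T => fun q => φ.1 q.out) (by
        intro φ ψ h
        apply Subtype.ext
        funext x
        obtain ⟨u, hu⟩ := QuotientGroup.mk_out_eq_mul (L.subgroupOf M) x
        have h7 := congrFun h (x : M ⧸ L.subgroupOf M)
        simp only at h7
        have ha := (hT φ.2).1
        have hb := (hT ψ.2).1
        have h8 := congrFun (hf _ φ.2 _ ψ.2) ⟨u, u.2⟩
        change φ.1 (u : M) = ψ.1 (u : M) at h8
        rw [hu, ha, hb, h8] at h7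
        exact add_right_cancel h7)
    rw [Nat.card_fun, Nat.card_eq_fintype_card, Fintype.card_coe] at h6
    exact h6.trans (Nat.pow_le_pow_right Nat.card_pos hn)

end Pool.Agent.U152.FM
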